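import Pool.Agent.Helper42.Weiss.GlueThm

namespace Pool.Agent.Results.MP_6b0aee_an.ShadowingSystems

open Pool.Agent.Helper42.Weiss

theorem isEquivMetric_dist (X : Type*) [MetricSpace X] :
    IsEquivMetric (fun x y : X => dist x y) where
  self := dist_self
  eq_of := fun _ _ h => dist_eq_zero.1 h
  symm := dist_comm
  triangle := dist_triangle
  basis := fun x => by
    have h := Metric.nhds_basis_ball (x := x)
    have h2 : ∀ r : ℝ, {y | dist x y < r} = Metric.ball x r := by
      intro r
      ext y
      simp [dist_comm]
    simp only [h2]
    exact h

/-- Let `F` be a continuous map of a compact metric space with the shadowing property, or with the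
weak specification property, or, more generally, with the property that lists of orbit segments
whose ends match up to `δ` can be glued up to `η` with gaps `o(T)`.  Then for every equivalent
metric `D` the limit `lim_T (1/T) ln sep(ε, D_T)` exists for all but countably many `ε > 0`, and
there is an equivalent metric for which it exists for every `ε > 0`. -/
theorem result {X : Type*} [MetricSpace X] [CompactSpace X] (F : X → X) (_hF : Continuous F)
    (h : Shadowing F (fun x y => dist x y) ∨ WeakSpecification F (fun x y => dist x y) ∨
      Glues F (fun x y => dist x y)) :
    (∀ D : X → X → ℝ, IsEquivMetric D → {ε : ℝ | 0 < ε ∧ ¬ HasSepRate D F ε}.Countable) ∧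
      ∃ D : X → X → ℝ, IsEquivMetric D ∧ ∀ ε > 0, HasSepRate D F ε := by
  have hd := isEquivMetric_dist X
  rcases isEmpty_or_nonempty X with hX | hX
  · refine ⟨fun D _ => ?_, _, hd, fun ε _ => hasSepRate_of_isEmpty _ F ε⟩
    convert Set.countable_empty using 1
    ext ε
    simp [hasSepRate_of_isEmpty D F ε]
  rcases h with h | h | h
  · exact weiss_of_glues hd (glues_of_shadowing hd h)
  · exact weiss_of_glues hd (glues_of_weakSpecification h)
  · exact weiss_of_glues hd h

end Pool.Agent.Results.MP_6b0aee_an.ShadowingSystems
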