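import Pool.Agent.Helper42.Weiss.UERates

namespace Pool.Agent.Results.MP_6b0aee_an.UniquelyErgodic

open MeasureTheory Pool.Agent.Helper42.Weiss

/-- Let `F` be a continuous map of a compact metric space that has exactly one invariant Borel
probability measure.  Then for every equivalent metric `D` the limit
`lim_T (1/T) ln sep(ε, D_T)` exists for all but countably many `ε > 0`, and there is an equivalent
metric for which it exists for every `ε > 0`. -/
theorem result {X : Type*} [MetricSpace X] [CompactSpace X] [MeasurableSpace X] [BorelSpace X]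
    (F : X → X) (hF : Continuous F)
    (h : ∃! μ : Measure X, IsProbabilityMeasure μ ∧ MeasurePreserving F μ μ) :
    (∀ D : X → X → ℝ, IsEquivMetric D → {ε : ℝ | 0 < ε ∧ ¬ HasSepRate D F ε}.Countable) ∧
      ∃ D : X → X → ℝ, IsEquivMetric D ∧ ∀ ε > 0, HasSepRate D F ε := by
  have hd : IsEquivMetric (fun x y : X => dist x y) :=
    { self := dist_self
      eq_of := fun _ _ h => dist_eq_zero.1 h
      symm := dist_comm
      triangle := dist_triangle
      basis := fun x => by
        have h := Metric.nhds_basis_ball (x := x)
        have h2 : ∀ r : ℝ, {y | dist x y < r} = Metric.ball x r := by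
          intro r
          ext y
          simp [dist_comm]
        simp only [h2]
        exact h }
  obtain ⟨μ, ⟨hμ1, hμ2⟩, huniq⟩ := h
  haveI := hμ1
  exact weiss_of_ue hF hd hμ2 (fun ν hν1 hν2 => huniq ν ⟨hν1, hν2⟩)

end Pool.Agent.Results.MP_6b0aee_an.UniquelyErgodic
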