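import Pool.Agent.Helper48.WeissJ.Main

namespace Pool.Agent.Results.MP_6b0aee_an.WeissJoint

open Filter Topology Pool.Agent.Helper42.Weiss Pool.Agent.Helper48.WeissJ

/-- **Positive answer to Weiss' questions Q1 and Q2, by one metric.**  For every continuous map `F`
of a compact metric space there is an equivalent metric `D` such that for every `ε > 0` the limits
of `(1/T) ln sep(ε, D_T)` and of `(1/T) ln span(ε, D_T)` both exist (as real numbers), and they are
equal. -/
theorem result {X : Type*} [MetricSpace X] [CompactSpace X] (F : X → X) (hF : Continuous F) :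
    ∃ D : X → X → ℝ, IsEquivMetric D ∧ ∀ ε : ℝ, 0 < ε → ∃ h : ℝ,
      Tendsto (fun T : ℕ => Real.log (sepNum D F ε T) / T) atTop (𝓝 h) ∧
      Tendsto (fun T : ℕ => Real.log (spanNum D F ε T) / T) atTop (𝓝 h) :=
  Pool.Agent.Helper48.WeissJ.weissJ F hF

end Pool.Agent.Results.MP_6b0aee_an.WeissJoint
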